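import Pool.Agent.Helper30.ML.Goals

/-!
# Project ML (MP_bf413e_co), packet T2
-/

set_option autoImplicit false

namespace Pool.Agent.Helper59.ML

open scoped Classical
open Finset
open Pool.Agent.Helper94.KC (Proper InChain KStep KEq AllEq dR QG Even2)
open Pool.Agent.Helper30.ML

theorem core (hKB : StmtKB) {V : Type} (G : SimpleGraph V) (f : V → Fin 5) (v x1 x2 y1 y2 : V)
    (h11 : f x1 ≠ f y1) (h12 : f x1 ≠ f y2) (h21 : f x2 ≠ f y1) (h22 : f x2 ≠ f y2)
    (v1 : f v ≠ f x1) (v2 : f v ≠ f x2) (v3 : f v ≠ f y1) (v4 : f v ≠ f y2) :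
    (∃ g, KEq G f g ∧ (g x1 = g x2 ∨ g y1 = g y2)) ∨
    ∃ A B : Set V, v ∉ A ∧ v ∉ B ∧ Disjoint A B ∧ ConS G A ∧ ConS G B ∧ x1 ∈ A ∧ x2 ∈ A ∧
      y1 ∈ B ∧ y2 ∈ B := by
  obtain ⟨a1, a2, a3, a4⟩ := hKB.2.2.2.2.1 V G f (f x1) (f x2) x1 (Or.inl rfl)
  obtain ⟨b1, b2, b3, b4⟩ := hKB.2.2.2.2.1 V G f (f y1) (f y2) y1 (Or.inl rfl)
  by_cases hA : InChain G f (f x1) (f x2) x1 x2
  · by_cases hB : InChain G f (f y1) (f y2) y1 y2
    · right
      refine ⟨{y | InChain G f (f x1) (f x2) x1 y}, {y | InChain G f (f y1) (f y2) y1 y}, ?_, ?_,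
        ?_, a3, b3, a4, hA, b4, hB⟩
      · intro h
        rcases a2 v h with h | h
        · exact v1 h
        · exact v2 h
      · intro h
        rcases b2 v h with h | h
        · exact v3 h
        · exact v4 h
      · rw [Set.disjoint_left]
        intro y hy hy'
        rcases a2 y hy with h | h <;> rcases b2 y hy' with h' | h'
        · exact h11 (h.symm.trans h')
        · exact h12 (h.symm.trans h')
        · exact h21 (h.symm.trans h')
        · exact h22 (h.symm.trans h')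
    · left
      refine ⟨_, b1, Or.inr ?_⟩
      simp only [sw]
      rw [if_pos b4, if_neg hB, Equiv.swap_apply_left]
  · left
    refine ⟨_, a1, Or.inl ?_⟩
    simp only [sw]
    rw [if_pos a4, if_neg hA, Equiv.swap_apply_left]

theorem pT2 (hKB : StmtKB) : StmtT2 := by
  intro V _ G v w hw hv hX f hf h02 h01 h03 h04 h13 h14 h34
  have n0 := hf v (w 0) (hv 0)
  have n1 := hf v (w 1) (hv 1)
  have n2 := hf v (w 2) (hv 2)
  have n3 := hf v (w 3) (hv 3)
  have n4 := hf v (w 4) (hv 4)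
  constructor
  · rcases core hKB G f v (w 1) (w 3) (w 2) (w 4) (by rw [← h02]; exact h01.symm) h14
      (by rw [← h02]; exact h03.symm) h34 n1 n3 n2 n4 with h | ⟨A, B, c1, c2, c3, c4, c5, c6, c7,
        c8, c9⟩
    · exact h
    · exact (hX 1 A B c1 c2 c3 c4 c5 c6 c7 c8 c9).elim
  · rcases core hKB G f v (w 1) (w 4) (w 0) (w 3) h01.symm h13 h04.symm h34.symm n1 n4 n0 n3 with
      h | ⟨A, B, c1, c2, c3, c4, c5, c6, c7, c8, c9⟩
    · exact h
    · exact (hX 3 B A c2 c1 c3.symm c5 c4 c9 c8 c7 c6).elim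

end Pool.Agent.Helper59.ML
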