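import Pool.Agent.Helper30.ML.Goals

/-!
# Project ML (MP_bf413e_co), packet XT
-/

set_option autoImplicit false

namespace Pool.Agent.Helper59.ML

open scoped Classical
open Finset
open Pool.Agent.Helper94.KC (Proper InChain KStep KEq AllEq dR QG Even2)
open Pool.Agent.Helper30.ML

theorem cr_ne {V : Type} {G : SimpleGraph V} {x y a b : V} (hxy : ¬ G.Adj x y) (hab : G.Adj a b) :
    cr x y a ≠ cr x y b := by
  unfold cr
  split_ifs with h1 h2 h2
  · subst h1; subst h2; exact (hab.ne rfl).elim
  · subst h1
    intro h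
    subst h
    exact hxy hab.symm
  · subst h2
    intro h
    subst h
    exact hxy hab
  · exact hab.ne

theorem cr_ne_v {V : Type} {x y a v : V} (hx : x ≠ v) (ha : a ≠ v) : cr x y a ≠ v := by
  unfold cr
  split_ifs
  · exact hx
  · exact ha

theorem pXT (hFC : StmtFC) (hQY : StmtQY) : StmtXT := by
  intro V _ G v x y hM hd hxy hx hy hn
  obtain ⟨hM', -⟩ := hQY.1 V G v x y hM hxy hx hy
  obtain ⟨h, hh⟩ := hFC V _ hM'
  have hcard : (((univ.filter (fun z => G.Adj v z)).erase y).image (fun z => h (cr x y z))).card <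
      (univ : Finset (Fin 5)).card := by
    have h1 : y ∈ univ.filter (fun z => G.Adj v z) := by simp [hy]
    have h2 : ((univ.filter (fun z => G.Adj v z)).erase y).card ≤ 4 := by
      rw [Finset.card_erase_of_mem h1]
      have : (univ.filter (fun z => G.Adj v z)).card ≤ 5 := hd
      omega
    calc _ ≤ ((univ.filter (fun z => G.Adj v z)).erase y).card := Finset.card_image_le
      _ < _ := by simp; omega
  obtain ⟨c, -, hc⟩ := Finset.exists_mem_notMem_of_card_lt_card hcard
  have hcx : cr x y x = x := by simp [cr, hxy]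
  have hcy : cr x y y = x := by simp [cr]
  have hc' : ∀ z, G.Adj v z → h (cr x y z) ≠ c := by
    intro z hz he
    apply hc
    rw [Finset.mem_image]
    by_cases hzy : z = y
    · refine ⟨x, ?_, ?_⟩
      · simp [hxy, hx]
      · rw [hcx, ← he, hzy, hcy]
    · exact ⟨z, by simp [hzy, hz], he⟩
  refine ⟨fun z => if z = v then c else h (cr x y z), ?_, ?_⟩
  · intro a b hab
    by_cases ha : a = v
    · subst ha
      have hb : b ≠ a := hab.ne.symm
      simp only [if_true, if_neg hb]
      exact (hc' b hab).symm
    · by_cases hb : b = v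
      · subst hb
        simp only [if_true, if_neg ha]
        exact hc' a hab.symm
      · simp only [if_neg ha, if_neg hb]
        apply hh
        exact ⟨⟨cr_ne hn hab, a, b, rfl, rfl, hab⟩, cr_ne_v hx.ne.symm ha,
          cr_ne_v hx.ne.symm hb⟩
  · simp only [if_neg hx.ne.symm, if_neg hy.ne.symm, hcx, hcy]

end Pool.Agent.Helper59.ML
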